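import Mathlib
import Pool.Agent.Helper380.VDC.Main3
import Pool.Agent.Helper380.VDC.Low2

set_option autoImplicit false

namespace Pool.Agent.Results.MP_b3c6db_nt.AExactExponent

open Finset

/-- The cosine polynomial `T(x) = c₀ + ∑_{k=1}^H c_k cos(2π k² x)` is admissible: `T(x) ≥ 0` for
every real `x`, and `T(0) = 1`. -/
def Admissible (H : ℕ) (c₀ : ℝ) (c : ℕ → ℝ) : Prop :=
  (∀ x : ℝ, 0 ≤ c₀ + ∑ k ∈ Icc 1 H, c k * Real.cos (2 * Real.pi * (k : ℝ) ^ 2 * x)) ∧
    c₀ + ∑ k ∈ Icc 1 H, c k = 1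

/-- `δ(H)`: the infimum of the constant terms `c₀` of the admissible polynomials with
parameter `H`. -/
noncomputable def delta (H : ℕ) : ℝ := sInf {c₀ : ℝ | ∃ c : ℕ → ℝ, Admissible H c₀ c}

theorem fact (H : ℕ) (hH : 3 ≤ H) : 1 ≤ Real.log H := by
  have h3 : (3 : ℝ) ≤ H := by exact_mod_cast hH
  rw [Real.le_log_iff_exp_le (by linarith)]
  have := Real.exp_one_lt_d9
  linarith

/-- There is a constant `C > 0` such that for every `H ≥ 3`
`C⁻¹ exp(-C √(log H · log log H)) ≤ δ(H) ≤ C exp(-C⁻¹ √(log H · log log H))`. -/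
theorem result : ∃ C : ℝ, 0 < C ∧ ∀ H : ℕ, 3 ≤ H →
    1 / C * Real.exp (-C * √(Real.log H * Real.log (Real.log H))) ≤ delta H ∧
      delta H ≤ C * Real.exp (-(1 / C) * √(Real.log H * Real.log (Real.log H))) := by
  obtain ⟨C1, hC1, h1⟩ := Pool.Agent.Helper380.VDCX.low2
  obtain ⟨c, C2, hc, hC2, h2⟩ := Pool.Agent.Helper380.VDCX.upper3
  obtain ⟨C, hC⟩ : ∃ C : ℝ, C = C1 + C2 + 1 / c := ⟨_, rfl⟩
  have hc' : 0 < 1 / c := by positivity
  have hCpos : 0 < C := by rw [hC]; positivity
  refine ⟨C, hCpos, fun H hH => ⟨?_, ?_⟩⟩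
  · refine le_trans ?_ (h1 H hH)
    have hs : 0 ≤ √(Real.log H * Real.log (Real.log H)) := Real.sqrt_nonneg _
    have a1 : 1 / C ≤ 1 / C1 := by
      apply one_div_le_one_div_of_le hC1
      rw [hC]; linarith
    have a2 : -C * √(Real.log H * Real.log (Real.log H)) ≤
        -C1 * √(Real.log H * Real.log (Real.log H)) := by
      have b2 : C1 * √(Real.log H * Real.log (Real.log H)) ≤
          C * √(Real.log H * Real.log (Real.log H)) :=
        mul_le_mul_of_nonneg_right (by rw [hC]; linarith) hs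
      linarith
    exact mul_le_mul a1 (Real.exp_le_exp.2 a2) (Real.exp_pos _).le (by positivity)
  · refine (h2 H hH).trans ?_
    have hlog := fact H hH
    have a1 : C2 ≤ C := by rw [hC]; linarith
    have a2 : -c * √(Real.log H * Real.log (Real.log H)) ≤
        -(1 / C) * √(Real.log H * Real.log (Real.log H)) := by
      have b0 : 1 / C ≤ c := by
        rw [div_le_iff₀ hCpos]
        have : c * (1 / c) = 1 := by field_simp
        have h3 : c * (1 / c) ≤ c * C :=
          mul_le_mul_of_nonneg_left (by rw [hC]; linarith) hc.le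
        linarith
      have b1 := mul_le_mul_of_nonneg_right b0 (Real.sqrt_nonneg (Real.log H * Real.log (Real.log H)))
      linarith
    exact mul_le_mul a1 (Real.exp_le_exp.2 a2) (Real.exp_pos _).le hCpos.le

end Pool.Agent.Results.MP_b3c6db_nt.AExactExponent
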