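import Pool.Agent.VdCSquares.SqrtLog
import Pool.Agent.VdCSquares.LowerBound

/-!
# MP_b3c6db_nt: the decay rate of `δ(H)` up to `log log H` factors in the exponent

For every `H ≥ 16`
`exp(-10^5 √(log H) (log log H)^(3/2)) ≤ δ(H) ≤ 128 exp(-√(log H) / 10^8)`,
so `log (1/δ(H)) = (log H)^(1/2 + o(1))`.
-/

namespace Pool.Agent.Results.MP_b3c6db_nt.BothSides

open Real

/-- The cosine polynomial `c₀ + ∑_{k=1}^H c_k cos (2π k² x)`. -/
noncomputable def T (H : ℕ) (c0 : ℝ) (c : ℕ → ℝ) (x : ℝ) : ℝ :=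
  c0 + ∑ k ∈ Finset.Icc 1 H, c k * cos (2 * π * (k : ℝ) ^ 2 * x)

/-- Admissible: non-negative on `ℝ`, value `1` at `0`. -/
def Admissible (H : ℕ) (c0 : ℝ) (c : ℕ → ℝ) : Prop :=
  (∀ x : ℝ, 0 ≤ T H c0 c x) ∧ T H c0 c 0 = 1

/-- `δ(H)`: the infimum of the constant terms of admissible polynomials with parameter `H`. -/
noncomputable def δ (H : ℕ) : ℝ :=
  sInf {c0 : ℝ | ∃ c : ℕ → ℝ, Admissible H c0 c}

/-- **Result.** Explicit bounds on both sides for every `H ≥ 16`, and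
`log (log (1/δ(H))) / log (log H) → 1/2`. -/
theorem result :
    (∀ H : ℕ, 16 ≤ H →
      Real.exp (-(10 ^ 5 * √(Real.log H) * (Real.log (Real.log H)) ^ (3 / 2 : ℝ))) ≤ δ H ∧
        δ H ≤ 128 * Real.exp (-√(Real.log H) / 10 ^ 8)) ∧
    Filter.Tendsto (fun H : ℕ => Real.log (-Real.log (δ H)) / Real.log (Real.log H))
      Filter.atTop (nhds (1 / 2)) := by
  have key : ∀ H : ℕ, 16 ≤ H →
      Real.exp (-(10 ^ 5 * √(Real.log H) * (Real.log (Real.log H)) ^ (3 / 2 : ℝ))) ≤ δ H ∧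
        δ H ≤ 128 * Real.exp (-√(Real.log H) / 10 ^ 8) := by
    intro H hH
    have e : δ H = Pool.Agent.VdCSquares.δ H := rfl
    rw [e]
    exact ⟨Pool.Agent.VdCSquares.L.δ_lower H hH,
      Pool.Agent.VdCSquares.Q.δ_sqrt H (by omega)⟩
  exact ⟨key, Pool.Agent.VdCSquares.L.limit_half δ key⟩

end Pool.Agent.Results.MP_b3c6db_nt.BothSides
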