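import Pool.Agent.VdCSquares.SqrtLog
import Pool.Agent.VdCSquares.LowerBound2

/-!
# MP_b3c6db_nt: the decay rate of `δ(H)` up to one factor `log log H` in the exponent

For every `H ≥ 16`
`exp(-10^6 √(log H) log log H) ≤ δ(H) ≤ 128 exp(-√(log H) / 10^8)`.
-/

namespace Pool.Agent.Results.MP_b3c6db_nt.BothSidesSharp

open Real

/-- The cosine polynomial `c₀ + ∑_{k=1}^H c_k cos (2π k² x)`. -/
noncomputable def T (H : ℕ) (c0 : ℝ) (c : ℕ → ℝ) (x : ℝ) : ℝ :=
  c0 + ∑ k ∈ Finset.Icc 1 H, c k * cos (2 * π * (k : ℝ) ^ 2 * x)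

/-- Admissible: non-negative on `ℝ`, value `1` at `0`. -/
def Admissible (H : ℕ) (c0 : ℝ) (c : ℕ → ℝ) : Prop :=
  (∀ x : ℝ, 0 ≤ T H c0 c x) ∧ T H c0 c 0 = 1

/-- `δ(H)`: the infimum of the constant terms of admissible polynomials with parameter `H`. -/
noncomputable def δ (H : ℕ) : ℝ :=
  sInf {c0 : ℝ | ∃ c : ℕ → ℝ, Admissible H c0 c}

/-- **Result.** Explicit bounds on both sides for every `H ≥ 16`; the exponents differ by a
factor `O(log log H)`. -/
theorem result (H : ℕ) (hH : 16 ≤ H) :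
    Real.exp (-(10 ^ 6 * √(Real.log H) * Real.log (Real.log H))) ≤ δ H ∧
      δ H ≤ 128 * Real.exp (-√(Real.log H) / 10 ^ 8) := by
  have e : δ H = Pool.Agent.VdCSquares.δ H := rfl
  rw [e]
  exact ⟨Pool.Agent.VdCSquares.L.δ_lower2 H hH,
    Pool.Agent.VdCSquares.Q.δ_sqrt H (by omega)⟩

end Pool.Agent.Results.MP_b3c6db_nt.BothSidesSharp
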