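import Mathlib
import Pool.Agent.Helper380.VDC.Main
import Pool.Agent.Helper380.VDC.Low

set_option autoImplicit false

namespace Pool.Agent.Results.MP_b3c6db_nt.TwoSidedRate

open Finset

/-- The cosine polynomial `T(x) = c₀ + ∑_{k=1}^H c_k cos(2π k² x)` is admissible: `T(x) ≥ 0` for
every real `x`, and `T(0) = 1`. -/
def Admissible (H : ℕ) (c₀ : ℝ) (c : ℕ → ℝ) : Prop :=
  (∀ x : ℝ, 0 ≤ c₀ + ∑ k ∈ Icc 1 H, c k * Real.cos (2 * Real.pi * (k : ℝ) ^ 2 * x)) ∧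
    c₀ + ∑ k ∈ Icc 1 H, c k = 1

/-- `δ(H)`: the infimum of the constant terms `c₀` of the admissible polynomials with
parameter `H`. -/
noncomputable def delta (H : ℕ) : ℝ := sInf {c₀ : ℝ | ∃ c : ℕ → ℝ, Admissible H c₀ c}

/-- There is a constant `C > 0` such that for every `H ≥ 1`
`C⁻¹ exp(-C √(log H) log(2 + log H)) ≤ δ(H) ≤ 11 exp(-√(log H) / 10⁶)`. -/
theorem result : ∃ C : ℝ, 0 < C ∧ ∀ H : ℕ, 1 ≤ H →
    1 / C * Real.exp (-C * √(Real.log H) * Real.log (2 + Real.log H)) ≤ delta H ∧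
      delta H ≤ 11 * Real.exp (-√(Real.log H) / 10 ^ 6) := by
  obtain ⟨C, hC, h⟩ := Pool.Agent.Helper380.VDCX.low
  exact ⟨C, hC, fun H hH => ⟨h H hH, Pool.Agent.Helper380.VDCX.upper H hH⟩⟩

end Pool.Agent.Results.MP_b3c6db_nt.TwoSidedRate
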